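import Mathlib

namespace Pool.Agent.Results.MP_304c86_co.Q1

open Classical

/-- The factor of length `n` of `x` starting at position `i`. -/
def factor {A : Type} (x : ℕ → A) (i n : ℕ) : List A := List.ofFn (fun j : Fin n => x (i + j))

/-- The set of positions at which `u` occurs in `w`. -/
def occ {A : Type} (u w : List A) : Set ℕ :=
  {j | j + u.length ≤ w.length ∧ (w.drop j).take u.length = u}

/-- A word is closed if it has length at most one or a border occurring exactly twice. -/
def Closed {A : Type} (w : List A) : Prop :=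
  w.length ≤ 1 ∨ ∃ u : List A, u.length < w.length ∧ u <+: w ∧ u <:+ w ∧ (occ u w).encard = 2

/-- The number of closed factors of length `n`. -/
noncomputable def cl {A : Type} (x : ℕ → A) (n : ℕ) : ℕ∞ :=
  {w : List A | (∃ i, w = factor x i n) ∧ Closed w}.encard

def Aperiodic {A : Type} (x : ℕ → A) : Prop :=
  ¬ ∃ N p, 0 < p ∧ ∀ i, N ≤ i → x (i + p) = x i

def Syndetic (S : Set ℕ) : Prop := ∃ g, ∀ a, ∃ s ∈ S, a ≤ s ∧ s < a + g

def Thick (S : Set ℕ) : Prop := ∀ L, ∃ a, ∀ s, a ≤ s → s < a + L → s ∈ S

def PiecewiseSyndetic (S : Set ℕ) : Prop := ∃ S₁ T, Syndetic S₁ ∧ Thick T ∧ S = S₁ ∩ T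

noncomputable def X (i : ℕ) : Bool := decide (∃ k, i = 4 ^ k)

lemma X_true {i : ℕ} : X i = true ↔ ∃ k, i = 4 ^ k := by simp [X]

lemma gap {a b : ℕ} (h : a < b) : 4 * 4 ^ a ≤ 4 ^ b := by
  rw [← pow_succ']; exact Nat.pow_le_pow_right (by norm_num) h

lemma tri (a b : ℕ) : 4 * 4 ^ a ≤ 4 ^ b ∨ 4 ^ a = 4 ^ b ∨ 4 * 4 ^ b ≤ 4 ^ a := by
  rcases lt_trichotomy a b with h | h | h
  · exact Or.inl (gap h)
  · exact Or.inr (Or.inl (by rw [h]))
  · exact Or.inr (Or.inr (gap h))

lemma pos4 (a : ℕ) : 0 < 4 ^ a := by positivity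

lemma uniq {s t s' t' p : ℕ} (hp : 0 < p) (h : 4 ^ s + p = 4 ^ t) (h' : 4 ^ s' + p = 4 ^ t') :
    4 ^ s = 4 ^ s' := by
  have := tri s t
  have := tri s' t'
  have := tri t t'
  have := pos4 s
  have := pos4 s'
  omega

/-- the core combinatorial statement, in terms of indices -/
lemma core {i n m p k : ℕ} (hk1 : 2 * 4 ^ k ≤ n) (hk2 : n ≤ 3 * 4 ^ k) (hp : 0 < p)
    (hn : n = p + m) (hB : ∀ j, j < m → X (i + p + j) = X (i + j))
    (hU : ∀ q, 0 < q → q < p → ¬ ∀ j, j < m → X (i + q + j) = X (i + j)) :
    (∀ j, j < n → X (i + j) = false) ∨ (∀ j, j < n → X (i + j) = decide (j = n / 2)) := by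
  have hk0 := pos4 k
  by_cases hA : ∃ j, j < m ∧ X (i + j) = true
  · exfalso
    obtain ⟨j, hj, hx⟩ := hA
    have hx' := hx
    rw [← hB j hj] at hx'
    obtain ⟨s, hs⟩ := X_true.1 hx
    obtain ⟨t, ht⟩ := X_true.1 hx'
    have hs0 := pos4 s
    have hst : 4 ^ s + p = 4 ^ t := by omega
    have one : ∀ j', j' < m → X (i + j') = true → j' = j := by
      intro j' hj' hy
      have hy' := hy
      rw [← hB j' hj'] at hy'
      obtain ⟨s', hs'⟩ := X_true.1 hy
      obtain ⟨t', ht'⟩ := X_true.1 hy'
      have := uniq (s := s) (t := t) (s' := s') (t' := t') hp hst (by omega)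
      omega
    have hm : m ≤ j + 3 * 4 ^ s := by
      by_contra hc
      have := one (j + 3 * 4 ^ s) (by omega) (X_true.2 ⟨s + 1, by rw [pow_succ]; omega⟩)
      omega
    have h1 := tri s t
    have h2 := tri (s + 1) t
    have h3 := tri s k
    rw [pow_succ] at h2
    have hq : 3 * 4 ^ s < p := by omega
    apply hU (3 * 4 ^ s) (by omega) hq
    intro j' hj'
    by_cases e : j' = j
    · subst e
      rw [hx]; exact X_true.2 ⟨s + 1, by rw [pow_succ]; omega⟩
    · have f1 : X (i + j') = false := by
        cases h : X (i + j')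
        · rfl
        · exact absurd (one j' hj' h) e
      rw [f1]
      cases h : X (i + 3 * 4 ^ s + j')
      · rfl
      · exfalso
        obtain ⟨r, hr⟩ := X_true.1 h
        have h4 := tri s r
        have h5 := tri (s + 1) r
        rw [pow_succ] at h5
        omega
  · have hF : ∀ j, j < m → X (i + j) = false := by
      intro j hj
      cases h : X (i + j)
      · rfl
      · exact absurd ⟨j, hj, h⟩ hA
    have hG : ∀ j, p ≤ j → j < n → X (i + j) = false := by
      intro j h1 h2
      have := hB (j - p) (by omega)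
      rw [hF _ (by omega)] at this
      rw [← this]; congr 1; omega
    cases hm : X (i + m)
    · left
      have hp1 : p = 1 := by
        by_contra hc
        apply hU 1 one_pos (by omega)
        intro j hj
        rw [hF j hj]
        by_cases e : j + 1 = m
        · rw [← hm]; congr 1; omega
        · rw [← hF (j + 1) (by omega)]; congr 1; omega
      intro j hj
      by_cases e : j < m
      · exact hF j e
      · exact hG j (by omega) hj
    · right
      obtain ⟨s, hs⟩ := X_true.1 hm
      have hmp : m < p := by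
        by_contra hc
        rw [hG m (by omega) (by omega)] at hm
        exact absurd hm (by simp)
      have hp1 : p = m + 1 := by
        by_contra hc
        apply hU (m + 1) (by omega) (by omega)
        intro j hj
        rw [hF j hj]
        cases h : X (i + (m + 1) + j)
        · rfl
        · exfalso
          obtain ⟨r, hr⟩ := X_true.1 h
          have h4 := tri s r
          omega
      intro j hj
      by_cases e : j = m
      · rw [e, hm]; symm; rw [decide_eq_true_iff]; omega
      · have : decide (j = n / 2) = false := by rw [decide_eq_false_iff_not]; omega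
        rw [this]
        by_cases e' : j < m
        · exact hF j e'
        · exact hG j (by omega) hj

lemma factor_length {A : Type} (x : ℕ → A) (i n : ℕ) : (factor x i n).length = n := by
  simp [factor]

lemma sub_eq {A : Type} (x : ℕ → A) (i n q m : ℕ) (h : q + m ≤ n) :
    ((factor x i n).drop q).take m = factor x (i + q) m := by
  apply List.ext_getElem
  · simp [factor]; omega
  · intro j h1 h2
    simp [factor, add_assoc]

lemma factor_eq_iff {A : Type} (x : ℕ → A) (a b m : ℕ) :
    factor x a m = factor x b m ↔ ∀ j, j < m → x (a + j) = x (b + j) := by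
  unfold factor
  rw [List.ofFn_inj, funext_iff]
  constructor
  · intro h j hj; exact h ⟨j, hj⟩
  · intro h j; exact h j j.2

theorem result : ∃ x : ℕ → Bool, Aperiodic x ∧ ∃ S : Set ℕ, Thick S ∧ PiecewiseSyndetic S ∧
    S.Infinite ∧ ∀ n ∈ S, cl x n ≤ 2 := by
  have hlt : ∀ L, L < 4 ^ L := fun L => Nat.lt_pow_self (by norm_num)
  have hT : Thick {n | ∃ k, 2 * 4 ^ k ≤ n ∧ n ≤ 3 * 4 ^ k} := by
    intro L
    refine ⟨2 * 4 ^ L, fun s h1 h2 => ⟨L, h1, ?_⟩⟩
    have := hlt L
    omega
  refine ⟨X, ?_, {n | ∃ k, 2 * 4 ^ k ≤ n ∧ n ≤ 3 * 4 ^ k}, hT, ⟨Set.univ, _, ?_, hT, ?_⟩, ?_, ?_⟩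
  · rintro ⟨N, p, hp, h⟩
    have h0 := hlt (N + p)
    have h1 := h (4 ^ (N + p)) (by omega)
    rw [X_true.2 ⟨N + p, rfl⟩] at h1
    obtain ⟨r, hr⟩ := X_true.1 h1
    have := tri (N + p) r
    omega
  · exact ⟨1, fun a => ⟨a, trivial, le_rfl, by omega⟩⟩
  · simp
  · apply Set.infinite_of_forall_exists_gt
    intro a
    refine ⟨2 * 4 ^ a, ⟨a, le_rfl, by omega⟩, ?_⟩
    have := hlt a
    omega
  · rintro n ⟨k, hk1, hk2⟩
    have hk0 := pos4 k
    unfold cl
    have hsub : {w : List Bool | (∃ i, w = factor X i n) ∧ Closed w} ⊆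
        {List.ofFn (fun _ : Fin n => false), List.ofFn (fun j : Fin n => decide (j.1 = n / 2))} := by
      rintro w ⟨⟨i, rfl⟩, hc⟩
      rcases hc with hc | ⟨u, hu, hpre, hsuf, hocc⟩
      · rw [factor_length] at hc; omega
      rw [factor_length] at hu
      have e0 : u = factor X i u.length := by
        have h1 := List.prefix_iff_eq_take.1 hpre
        have h2 := sub_eq X i n 0 u.length (by omega)
        rw [List.drop_zero, add_zero] at h2
        rw [← h2]; exact h1
      have hmem : ∀ q, q + u.length ≤ n →
          (q ∈ occ u (factor X i n) ↔ ∀ j, j < u.length → X (i + q + j) = X (i + j)) := by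
        intro q hq
        unfold occ
        rw [Set.mem_ofPred_eq, factor_length, sub_eq X i n q u.length hq, ← factor_eq_iff, ← e0]
        exact ⟨fun h => h.2, fun h => ⟨hq, h⟩⟩
      have m0 : 0 ∈ occ u (factor X i n) := (hmem 0 (by omega)).2 (fun j _ => by simp)
      have mp : n - u.length ∈ occ u (factor X i n) := by
        have h1 := List.suffix_iff_eq_drop.1 hsuf
        rw [factor_length] at h1
        refine ⟨by rw [factor_length]; omega, ?_⟩
        rw [← h1]; simp
      have hcore := core (i := i) (n := n) (m := u.length) (p := n - u.length) hk1 hk2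
        (by omega) (by omega) ((hmem _ (by omega)).1 mp) (by
          intro q h0 h1 hq
          have mq := (hmem q (by omega)).2 hq
          obtain ⟨a, b, hab, he⟩ := Set.encard_eq_two.1 hocc
          rw [he] at m0 mp mq
          simp only [Set.mem_insert_iff, Set.mem_singleton_iff] at m0 mp mq
          omega)
      rcases hcore with h | h
      · left
        unfold factor
        congr 1; funext j; exact h j j.2
      · right
        unfold factor
        rw [Set.mem_singleton_iff]
        congr 1; funext j; exact h j j.2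
    refine (Set.encard_le_encard hsub).trans ?_
    refine (Set.encard_insert_le _ _).trans ?_
    rw [Set.encard_singleton]
    norm_num

end Pool.Agent.Results.MP_304c86_co.Q1
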